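import Pool.Agent.helper48.PR.SpecL

/-!
# Project pr (MP_a2a22c_al), module LTOP: `GL(n, ℤ_q)` is profinite, congruence classes are open
-/

set_option autoImplicit false

namespace Pool.Agent.PR

open Matrix

theorem LTOP_dvd_iff {q : ℕ} [Fact q.Prime] (m x : ℤ_[q]) (hm : m ≠ 0) : m ∣ x ↔ ‖x‖ ≤ ‖m‖ := by
  constructor
  · rintro ⟨c, rfl⟩
    rw [norm_mul]
    exact mul_le_of_le_one_right (norm_nonneg _) (PadicInt.norm_le_one c)
  · intro h
    have hm' : (m : ℚ_[q]) ≠ 0 := by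
      intro h0
      exact hm (Subtype.ext h0)
    have h1 : ‖(x : ℚ_[q]) / (m : ℚ_[q])‖ ≤ 1 := by
      rw [norm_div]
      have h2 : 0 < ‖(m : ℚ_[q])‖ := norm_pos_iff.2 hm'
      rw [div_le_one h2]
      exact h
    refine ⟨⟨(x : ℚ_[q]) / (m : ℚ_[q]), h1⟩, ?_⟩
    apply Subtype.ext
    show (x : ℚ_[q]) = (m : ℚ_[q]) * ((x : ℚ_[q]) / (m : ℚ_[q]))
    rw [mul_div_cancel₀ _ hm']

theorem LTOP_isOpen {q : ℕ} [Fact q.Prime] (m : ℤ_[q]) (hm : m ≠ 0) : IsOpen {x : ℤ_[q] | m ∣ x} := by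
  have h1 : {x : ℤ_[q] | m ∣ x} = Metric.closedBall (0 : ℤ_[q]) ‖m‖ := by
    ext x
    rw [mem_closedBall_zero_iff]
    exact LTOP_dvd_iff m x hm
  rw [h1]
  exact IsUltrametricDist.isOpen_closedBall (0 : ℤ_[q]) (norm_ne_zero_iff.2 hm)

theorem LTOP : LTOP_stmt := by
  intro n q _
  have c1 : CompactSpace (Matrix (Fin n) (Fin n) ℤ_[q]) :=
    (inferInstance : CompactSpace (Fin n → Fin n → ℤ_[q]))
  have c2 : TotallyDisconnectedSpace (Matrix (Fin n) (Fin n) ℤ_[q]) :=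
    (inferInstance : TotallyDisconnectedSpace (Fin n → Fin n → ℤ_[q]))
  have c3 : T1Space (Matrix (Fin n) (Fin n) ℤ_[q]) := inferInstance
  refine ⟨inferInstance, ⟨?_⟩, ?_⟩
  · apply isTotallyDisconnected_of_image (f := fun A : GL (Fin n) ℤ_[q] => (A : Matrix (Fin n) (Fin n) ℤ_[q]))
    · exact Units.continuous_val.continuousOn
    · exact Units.val_injective
    · exact isTotallyDisconnected_of_totallyDisconnectedSpace _
  · intro m hm B
    have h1 : {A : GL (Fin n) ℤ_[q] | MC m (A : Matrix (Fin n) (Fin n) ℤ_[q]) B} =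
        ⋂ i : Fin n, ⋂ j : Fin n, {A : GL (Fin n) ℤ_[q] |
          (m : ℤ_[q]) ∣ (A : Matrix (Fin n) (Fin n) ℤ_[q]) i j - (B : Matrix (Fin n) (Fin n) ℤ_[q]) i j} := by
      ext A
      simp only [Set.mem_iInter]
      rfl
    rw [h1]
    apply isOpen_iInter_of_finite
    intro i
    apply isOpen_iInter_of_finite
    intro j
    have h2 : Continuous (fun A : GL (Fin n) ℤ_[q] =>
        (A : Matrix (Fin n) (Fin n) ℤ_[q]) i j - (B : Matrix (Fin n) (Fin n) ℤ_[q]) i j) := by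
      have h4 : Continuous (fun A : GL (Fin n) ℤ_[q] => (A : Matrix (Fin n) (Fin n) ℤ_[q])) :=
        Units.continuous_val
      have h3 : Continuous (fun A : GL (Fin n) ℤ_[q] => (A : Matrix (Fin n) (Fin n) ℤ_[q]) i j) :=
        h4.matrix_elem i j
      exact h3.sub continuous_const
    have hm' : (m : ℤ_[q]) ≠ 0 := by exact_mod_cast hm
    exact (LTOP_isOpen (m : ℤ_[q]) hm').preimage h2

end Pool.Agent.PR
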