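import Pool.Agent.helper48.PR.SpecC

/-!
# Project pr (MP_a2a22c_al), module C9: matrix units
-/

set_option autoImplicit false

namespace Pool.Agent.PR

open Matrix

theorem C9_inv {n : ℕ} {F : Type} [Field F] (b : Fin n → Fin n → F) (hb : LinearIndependent F b)
    (s : Fin n → F) (hs : ∀ i, s i ≠ 0) :
    ∃ x y : Matrix (Fin n) (Fin n) F, x * y = 1 ∧ y * x = 1 ∧ ∀ l, x.col l = s l • b l := by
  have h1 : LinearIndependent F (fun l => s l • b l) := by
    have := hb.units_smul (fun l => Units.mk0 (s l) (hs l))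
    exact this
  let x : Matrix (Fin n) (Fin n) F := Matrix.of (fun a l => s l * b l a)
  have h2 : x.col = fun l => s l • b l := by
    funext l a
    rfl
  have h3 : IsUnit x := by
    rw [← Matrix.linearIndependent_cols_iff_isUnit, h2]
    exact h1
  obtain ⟨u, hu⟩ := h3
  refine ⟨x, ((u⁻¹ : (Matrix (Fin n) (Fin n) F)ˣ) : Matrix (Fin n) (Fin n) F), ?_, ?_, fun l => by rw [h2]⟩
  · rw [← hu]; exact u.mul_inv
  · rw [← hu]; exact u.inv_mul

theorem C9_unit {n : ℕ} {F : Type} [Field F] (x y A : Matrix (Fin n) (Fin n) F) (hxy : x * y = 1)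
    (i j : Fin n) (h : ∀ l, A *ᵥ x.col l = if l = j then x.col i else 0) :
    A = x * Matrix.single i j 1 * y := by
  have h1 : A * x = x * Matrix.single i j 1 := by
    ext a l
    have h2 := congrFun (h l) a
    have h3 : (A *ᵥ x.col l) a = (A * x) a l := rfl
    rw [← h3, h2]
    by_cases hl : l = j
    · subst hl
      rw [if_pos rfl, Matrix.mul_single_apply_same, mul_one]
      rfl
    · rw [if_neg hl, Matrix.mul_single_apply_of_ne _ _ _ _ _ hl]
      rfl
  rw [← h1, Matrix.mul_assoc, hxy, Matrix.mul_one]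

theorem C9_smul_inj {n : ℕ} {F : Type} [Field F] (v : Fin n → F) (hv : v ≠ 0) (a c : F)
    (h : a • v = c • v) : a = c := by
  have h1 : (a - c) • v = 0 := by rw [sub_smul, h, sub_self]
  rcases smul_eq_zero.1 h1 with h2 | h2
  · exact sub_eq_zero.1 h2
  · exact absurd h2 hv

theorem C9 (hC9a : C9a_stmt) : C9_stmt := by
  intro n hn F _ _ M hM hne b c hb hc hw
  obtain ⟨m, hm⟩ := hC9a n hn F M hM hne b c hb hc hw
  let o : Fin n := ⟨0, by omega⟩
  have hb0 : ∀ l, b l ≠ 0 := fun l => hb.ne_zero l
  rcases hm with ⟨hc1, hm⟩ | ⟨hc1, hm⟩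
  · -- the standard case
    have e1 : ∀ i j, i ≠ j → m i j * m j i = 1 := by
      intro i j hij
      have h1 := hw i j hij i
      rw [if_pos rfl, if_neg hij, sub_zero, hc1, hh, Matrix.sub_mulVec, ← Matrix.mulVec_mulVec,
        ← Matrix.mulVec_mulVec, hm j i hij.symm i, if_pos rfl, hm i j hij i, if_neg hij,
        Matrix.mulVec_zero, sub_zero, Matrix.mulVec_smul, hm i j hij j, if_pos rfl, smul_smul] at h1
      have h2 := C9_smul_inj _ (hb0 i) _ _ h1
      rw [mul_comm]; exact h2
    have e2 : ∀ i j l, i ≠ j → j ≠ l → i ≠ l → m i j * m j l = m i l := by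
      intro i j l hij hjl hil
      have h1 := congrArg (fun A => A *ᵥ b l) (hM.r1 i j l hij hjl hil)
      rw [Matrix.sub_mulVec, ← Matrix.mulVec_mulVec,
        ← Matrix.mulVec_mulVec, hm j l hjl l, if_pos rfl, hm i j hij l, if_neg hjl.symm,
        Matrix.mulVec_zero, sub_zero, Matrix.mulVec_smul, hm i j hij j, if_pos rfl, smul_smul,
        hm i l hil l, if_pos rfl] at h1
      have h2 := C9_smul_inj _ (hb0 i) _ _ h1
      rw [mul_comm]; exact h2
    have hmne : ∀ i j, i ≠ j → m i j ≠ 0 := by
      intro i j hij h0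
      have := e1 i j hij
      rw [h0, zero_mul] at this
      exact zero_ne_one this
    let s : Fin n → F := fun i => if i = o then 1 else m i o
    have hs : ∀ i, s i ≠ 0 := by
      intro i
      show (if i = o then (1 : F) else m i o) ≠ 0
      split_ifs with h
      · exact one_ne_zero
      · exact hmne i o h
    have key : ∀ i j, i ≠ j → s j * m i j = s i := by
      intro i j hij
      show (if j = o then (1 : F) else m j o) * m i j = (if i = o then (1 : F) else m i o)
      by_cases hj : j = o
      · subst hj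
        rw [if_pos rfl, if_neg hij, one_mul]
      · rw [if_neg hj]
        by_cases hi : i = o
        · subst hi
          rw [if_pos rfl]
          exact e1 j o hj
        · rw [if_neg hi, mul_comm]
          exact e2 i j o hij hj hi
    obtain ⟨x, y, hxy, hyx, hx⟩ := C9_inv b hb s hs
    refine ⟨x, y, hxy, hyx, Or.inl ?_⟩
    intro i j hij
    apply C9_unit x y _ hxy i j
    intro l
    rw [hx, hx, Matrix.mulVec_smul, hm i j hij l]
    by_cases hl : l = j
    · subst hl
      rw [if_pos rfl, if_pos rfl, smul_smul, key i l hij]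
    · rw [if_neg hl, if_neg hl, smul_zero]
  · -- the dual case
    have e1 : ∀ i j, i ≠ j → m i j * m j i = 1 := by
      intro i j hij
      have h1 := hw i j hij i
      rw [if_pos rfl, if_neg hij, sub_zero, hc1, hh, Matrix.sub_mulVec, ← Matrix.mulVec_mulVec,
        ← Matrix.mulVec_mulVec, hm j i hij.symm i, if_neg hij, hm i j hij i, if_pos rfl,
        Matrix.mulVec_zero, zero_sub, Matrix.mulVec_smul, hm j i hij.symm j, if_pos rfl, smul_smul,
        neg_smul, neg_inj] at h1
      exact C9_smul_inj _ (hb0 i) _ _ h1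
    have e2 : ∀ i j l, i ≠ j → j ≠ l → i ≠ l → m i l = - (m i j * m j l) := by
      intro i j l hij hjl hil
      have h1 := congrArg (fun A => A *ᵥ b i) (hM.r1 i j l hij hjl hil)
      rw [Matrix.sub_mulVec, ← Matrix.mulVec_mulVec,
        ← Matrix.mulVec_mulVec, hm j l hjl i, if_neg hij, hm i j hij i, if_pos rfl,
        Matrix.mulVec_zero, zero_sub, Matrix.mulVec_smul, hm j l hjl j, if_pos rfl, smul_smul,
        hm i l hil i, if_pos rfl, ← neg_smul] at h1
      exact (C9_smul_inj _ (hb0 l) _ _ h1).symm
    have hmne : ∀ i j, i ≠ j → m i j ≠ 0 := by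
      intro i j hij h0
      have := e1 i j hij
      rw [h0, zero_mul] at this
      exact zero_ne_one this
    let s : Fin n → F := fun i => if i = o then 1 else - m o i
    have hs : ∀ i, s i ≠ 0 := by
      intro i
      show (if i = o then (1 : F) else - m o i) ≠ 0
      split_ifs with h
      · exact one_ne_zero
      · exact neg_ne_zero.2 (hmne o i (Ne.symm h))
    have key : ∀ i j, i ≠ j → s i * m i j = - s j := by
      intro i j hij
      show (if i = o then (1 : F) else - m o i) * m i j = - (if j = o then (1 : F) else - m o j)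
      by_cases hi : i = o
      · subst hi
        rw [if_pos rfl, if_neg (Ne.symm hij), one_mul, neg_neg]
      · rw [if_neg hi]
        by_cases hj : j = o
        · subst hj
          rw [if_pos rfl, neg_mul, e1 o i (Ne.symm hi)]
        · rw [if_neg hj, neg_neg, e2 o i j (Ne.symm hi) hij (Ne.symm hj), neg_mul]
    obtain ⟨x, y, hxy, hyx, hx⟩ := C9_inv b hb s hs
    refine ⟨x, y, hxy, hyx, Or.inr ?_⟩
    intro i j hij
    rw [eq_comm, neg_eq_iff_eq_neg, eq_comm]
    apply C9_unit x y _ hxy j i
    intro l
    rw [hx, hx, Matrix.neg_mulVec, Matrix.mulVec_smul, hm i j hij l]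
    by_cases hl : l = i
    · subst hl
      rw [if_pos rfl, if_pos rfl, smul_smul, key l j hij, neg_smul, neg_neg]
    · rw [if_neg hl, if_neg hl, smul_zero, neg_zero]

end Pool.Agent.PR
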